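import Pool.Agent.W_868bb7_h16c.Defs

/-!
# Invariance of the standard matching under generators of its stabiliser
-/

set_option autoImplicit false

namespace T7

open CategoryTheory MonoidalCategory Equiv Pool.Agent.W_MP_868bb7_ag

universe v u w

variable {C : Type u} [Category.{v} C] [MonoidalCategory C] [SymmetricCategory C]
variable {M T : C} (P : Pairing M T)

theorem act_sh2 (X : C) {n : ℕ} (e : Perm (Fin n)) :
    act X (n + 2) (sh2 e) = X ◁ (X ◁ act X n e) := by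
  unfold sh2
  rw [act_shift, act_shift]
  rfl

theorem CatA_swap {Z W : C} (h : Z ⟶ W) :
    sw M Z ≫ (α_ M M Z).inv ≫ (P.q ⊗ₘ h) = (α_ M M Z).inv ≫ (P.q ⊗ₘ h) := by
  have h1 : (β_ M M).hom ▷ Z ≫ (P.q ⊗ₘ h) = P.q ⊗ₘ h := by
    rw [← tensorHom_id, tensorHom_comp_tensorHom, Category.id_comp, P.q_symm]
  simp only [sw, Category.assoc, Iso.hom_inv_id_assoc]
  rw [h1]

omit [SymmetricCategory C] in
theorem CatA_sh {A B Z Z' W : C} (q : A ⊗ B ⟶ T) (a : Z ⟶ Z') (h : Z' ⟶ W) :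
    A ◁ (B ◁ a) ≫ (α_ A B Z').inv ≫ (q ⊗ₘ h) = (α_ A B Z).inv ≫ (q ⊗ₘ (a ≫ h)) := by
  rw [associator_inv_naturality_right_assoc, ← id_tensorHom, tensorHom_comp_tensorHom,
    Category.id_comp]

/-- regrouping -/
def CatA_A (M Z : C) : M ⊗ (M ⊗ (M ⊗ (M ⊗ Z))) ⟶ ((M ⊗ M) ⊗ (M ⊗ M)) ⊗ Z :=
  (α_ M M (M ⊗ (M ⊗ Z))).inv ≫ (M ⊗ M) ◁ (α_ M M Z).inv ≫ (α_ (M ⊗ M) (M ⊗ M) Z).inv

theorem CatA_key (M Z : C) :
    M ◁ sw M (M ⊗ Z) ≫ M ◁ (M ◁ sw M Z) ≫ sw M (M ⊗ (M ⊗ Z)) ≫ M ◁ sw M (M ⊗ Z) ≫ CatA_A M Z =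
      CatA_A M Z ≫ (β_ (M ⊗ M) (M ⊗ M)).hom ▷ Z := by
  rw [BraidedCategory.braiding_tensor_left_hom, BraidedCategory.braiding_tensor_right_hom]
  simp only [sw, CatA_A]
  monoidal

omit [SymmetricCategory C] in
theorem CatA_qq {Z W : C} (q : M ⊗ M ⟶ T) (h : Z ⟶ W) :
    (α_ M M (M ⊗ (M ⊗ Z))).inv ≫ (q ⊗ₘ ((α_ M M Z).inv ≫ (q ⊗ₘ h))) =
      CatA_A M Z ≫ ((q ⊗ₘ q) ⊗ₘ h) ≫ (α_ T T W).hom := by
  simp only [CatA_A, MonoidalCategory.tensorHom_def]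
  monoidal

theorem CatA_rho {Z W : C} (h : Z ⟶ W) :
    M ◁ sw M (M ⊗ Z) ≫ M ◁ (M ◁ sw M Z) ≫ sw M (M ⊗ (M ⊗ Z)) ≫ M ◁ sw M (M ⊗ Z) ≫
      (α_ M M (M ⊗ (M ⊗ Z))).inv ≫ (P.q ⊗ₘ ((α_ M M Z).inv ≫ (P.q ⊗ₘ h))) =
      (α_ M M (M ⊗ (M ⊗ Z))).inv ≫ (P.q ⊗ₘ ((α_ M M Z).inv ≫ (P.q ⊗ₘ h))) := by
  have h1 : (β_ (M ⊗ M) (M ⊗ M)).hom ▷ Z ≫ ((P.q ⊗ₘ P.q) ⊗ₘ h) = (P.q ⊗ₘ P.q) ⊗ₘ h := by
    rw [← tensorHom_id, tensorHom_comp_tensorHom, Category.id_comp,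
      ← BraidedCategory.braiding_naturality, P.T_symm, Category.comp_id]
  have h2 := congrArg (fun t => t ≫ ((P.q ⊗ₘ P.q) ⊗ₘ h) ≫ (α_ T T W).hom) (CatA_key M Z)
  simp only [Category.assoc] at h2
  rw [CatA_qq, h2, reassoc_of% h1]

/-- exchange of the two points of the first chord -/
theorem act_swap_qs (r : ℕ) : act M (2 * (r + 1)) (swap 0 1) ≫ qs P (r + 1) = qs P (r + 1) := by
  rw [qs_succ]
  have h1 : act M (2 * (r + 1)) (swap 0 1) = sw M (pow M (2 * r)) := act_swap M (2 * r)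
  exact (congrArg (fun t => t ≫ (α_ M M (pow M (2 * r))).inv ≫ (P.q ⊗ₘ qs P r)) h1).trans
    (CatA_swap P (qs P r))

omit [MonoidalCategory C] [SymmetricCategory C] in
theorem CatA_asc {X Y : C} {a b c d : X ⟶ X} {x : X ⟶ Y} (h : a ≫ b ≫ c ≫ d ≫ x = x) :
    (a ≫ b ≫ c ≫ d) ≫ x = x := by
  simpa only [Category.assoc] using h

theorem CatA_s1 (X : C) (n : ℕ) :
    act X (n + 3) (swap 1 2) = X ◁ sw X (pow X n) := by
  have h1 : (swap 1 2 : Perm (Fin (n + 3))) = shift (swap 0 1) := by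
    ext i : 1
    refine Fin.cases ?_ (fun j => ?_) i
    · rw [shift_zero]
      exact swap_apply_of_ne_of_ne (Fin.succ_ne_zero (0 : Fin (n + 2))).symm
        (Fin.succ_ne_zero (1 : Fin (n + 2))).symm
    · rw [shift_succ]
      have := (Fin.succ_injective (n + 2)).swap_apply 0 1 j
      exact this.symm.trans rfl |>.symm ▸ rfl
  rw [h1, act_shift, act_swap]
  rfl

theorem CatA_s2 (X : C) (n : ℕ) :
    act X (n + 4) (swap 2 3) = X ◁ (X ◁ sw X (pow X n)) := by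
  have h1 : (swap 2 3 : Perm (Fin (n + 4))) = shift (swap 1 2) := by
    ext i : 1
    refine Fin.cases ?_ (fun j => ?_) i
    · rw [shift_zero]
      exact swap_apply_of_ne_of_ne (Fin.succ_ne_zero (1 : Fin (n + 3))).symm
        (Fin.succ_ne_zero (2 : Fin (n + 3))).symm
    · rw [shift_succ]
      have := (Fin.succ_injective (n + 3)).swap_apply 1 2 j
      exact this.symm.trans rfl |>.symm ▸ rfl
  rw [h1, act_shift, CatA_s1]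
  rfl

/-- exchange of the first two chords: `(0 2)(1 3) = s₁ s₀ s₂ s₁` -/
theorem act_rho_qs (r : ℕ) :
    act M (2 * (r + 2)) (swap 1 2 * swap 0 1 * swap 2 3 * swap 1 2) ≫ qs P (r + 2) =
      qs P (r + 2) := by
  rw [act_mul, act_mul, act_mul, qs_succ, qs_succ]
  have e1 : act M (2 * (r + 2)) (swap 1 2) = M ◁ sw M (M ⊗ pow M (2 * r)) := CatA_s1 M (2 * r + 1)
  have e2 : act M (2 * (r + 2)) (swap 2 3) = M ◁ (M ◁ sw M (pow M (2 * r))) := CatA_s2 M (2 * r)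
  have e0 : act M (2 * (r + 2)) (swap 0 1) = sw M (M ⊗ (M ⊗ pow M (2 * r))) :=
    act_swap M (2 * r + 2)
  rw [e0, e1, e2]
  exact CatA_asc (CatA_rho P (qs P r))

theorem act_sh2_qs (r : ℕ) (e : Perm (Fin (2 * r))) :
    act M (2 * (r + 1)) (sh2 e) ≫ qs P (r + 1) =
      (α_ M M (pow M (2 * r))).inv ≫ (P.q ⊗ₘ (act M (2 * r) e ≫ qs P r)) := by
  rw [qs_succ]
  have h1 : act M (2 * (r + 1)) (sh2 e) = M ◁ (M ◁ act M (2 * r) e) := act_sh2 M e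
  exact (congrArg (fun t => t ≫ (α_ M M (pow M (2 * r))).inv ≫ (P.q ⊗ₘ qs P r)) h1).trans
    (CatA_sh P.q (act M (2 * r) e) (qs P r))

end T7
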