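import Pool.Agent.W_868bb7_h16c.Defs

/-!
# Combinatorics of `ups`, `ms`
-/

set_option autoImplicit false

namespace T7

open Equiv

theorem ups_zero {n : ℕ} (m : PM (Fin n)) : ups m 0 = 1 := rfl

theorem ups_one {n : ℕ} (m : PM (Fin n)) : ups m 1 = 0 := by
  rw [PM.eq_iff, ups_zero]

theorem ups_succ {n : ℕ} (m : PM (Fin n)) (i : Fin n) : ups m i.succ.succ = (m i).succ.succ := rfl

theorem map_sh2_ups {n : ℕ} (e : Perm (Fin n)) (m : PM (Fin n)) :
    PM.map (sh2 e) (ups m) = ups (PM.map e m) := by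
  have h0 : (sh2 e).symm 0 = 0 := (Equiv.symm_apply_eq _).2 (sh2_zero e).symm
  have h1 : (sh2 e).symm 1 = 1 := (Equiv.symm_apply_eq _).2 (sh2_one e).symm
  have h2 : ∀ i : Fin n, (sh2 e).symm i.succ.succ = (e.symm i).succ.succ := fun i =>
    (Equiv.symm_apply_eq _).2 (by rw [sh2_succ, e.apply_symm_apply])
  refine PM.ext fun x => ?_
  rw [PM.map_apply]
  refine Fin.cases ?_ (fun j => ?_) x
  · rw [h0, ups_zero, ups_zero, sh2_one]
  · refine Fin.cases ?_ (fun k => ?_) j
    · change sh2 e (ups m ((sh2 e).symm 1)) = ups (PM.map e m) 1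
      rw [h1, ups_one, ups_one, sh2_zero]
    · rw [h2, ups_succ, ups_succ, sh2_succ, PM.map_apply]

theorem CmbA_succ_succ {n : ℕ} {y : Fin (n + 2)} (h0 : y ≠ 0) (h1 : y ≠ 1) :
    ∃ k : Fin n, y = k.succ.succ := by
  obtain ⟨j, rfl⟩ := Fin.exists_succ_eq_of_ne_zero h0
  have hj : j ≠ 0 := by
    rintro rfl
    exact h1 rfl
  obtain ⟨k, rfl⟩ := Fin.exists_succ_eq_of_ne_zero hj
  exact ⟨k, rfl⟩

theorem exists_ups {n : ℕ} (m : PM (Fin (n + 2))) (h : m 0 = 1) : ∃ m' : PM (Fin n), m = ups m' := by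
  have h1 : m 1 = 0 := by rw [PM.eq_iff, h]
  have h2 : ∀ x : Fin n, ∃ y : Fin n, PM.map (eF n).symm m (Sum.inl x) = Sum.inl y := by
    intro x
    obtain ⟨k, hk⟩ := CmbA_succ_succ (y := m x.succ.succ)
      (fun hh => by
        rw [PM.eq_iff, h] at hh
        exact Fin.succ_ne_zero x (Fin.succ_injective _ hh))
      (fun hh => by
        rw [PM.eq_iff, h1] at hh
        exact Fin.succ_ne_zero _ hh)
    refine ⟨k, ?_⟩
    rw [PM.map_apply, Equiv.symm_symm, eF_inl, hk]
    rfl
  obtain ⟨m1, m2, h3⟩ := PM.exists_sum _ h2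
  refine ⟨m1, ?_⟩
  rw [PM.eq_bool m2] at h3
  unfold ups
  rw [← h3, PM.map_map, Equiv.symm_trans_self, PM.map_refl]

theorem ups_inj {n : ℕ} {m m' : PM (Fin n)} (h : ups m = ups m') : m = m' := by
  refine PM.ext fun x => ?_
  have h1 : ups m x.succ.succ = ups m' x.succ.succ := by rw [h]
  rw [ups_succ, ups_succ] at h1
  exact Fin.succ_injective _ (Fin.succ_injective _ h1)

/-- a permutation fixing `0` and `1` is `sh2` of a permutation -/
theorem exists_sh2 {n : ℕ} (g : Perm (Fin (n + 2))) (h0 : g 0 = 0) (h1 : g 1 = 1) :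
    ∃ e : Perm (Fin n), g = sh2 e := by
  have key : ∀ g : Perm (Fin (n + 2)), g 0 = 0 → g 1 = 1 → ∀ i : Fin n, ∃ j : Fin n,
      g i.succ.succ = j.succ.succ := by
    intro g h0 h1 i
    refine CmbA_succ_succ (fun hh => ?_) (fun hh => ?_)
    · rw [← h0] at hh
      exact Fin.succ_ne_zero _ (g.injective hh)
    · rw [← h1] at hh
      exact Fin.succ_ne_zero i (Fin.succ_injective _ (g.injective hh))
  have h0' : g.symm 0 = 0 := (Equiv.symm_apply_eq _).2 h0.symm
  have h1' : g.symm 1 = 1 := (Equiv.symm_apply_eq _).2 h1.symm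
  choose f hf using key g h0 h1
  choose f' hf' using key g.symm h0' h1'
  let e : Perm (Fin n) := ⟨f, f', fun i => by
    apply Fin.succ_injective _
    apply Fin.succ_injective _
    rw [← hf', ← hf, g.symm_apply_apply], fun i => by
    apply Fin.succ_injective _
    apply Fin.succ_injective _
    rw [← hf, ← hf', g.apply_symm_apply]⟩
  refine ⟨e, Equiv.ext fun x => ?_⟩
  refine Fin.cases ?_ (fun j => ?_) x
  · rw [h0, sh2_zero]
  · refine Fin.cases ?_ (fun k => ?_) j
    · change g 1 = sh2 e 1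
      rw [h1, sh2_one]
    · rw [sh2_succ, hf]
      rfl

/-- the symmetric group is transitive on the matchings -/
theorem exists_map_ms (r : ℕ) (m : PM (Fin (2 * r))) : ∃ σ : Perm (Fin (2 * r)),
    PM.map σ (ms r) = m := by
  induction r with
  | zero => exact ⟨1, PM.ext fun x => Fin.elim0 x⟩
  | succ r ih =>
    have key : ∀ m : PM (Fin (2 * r + 2)), ∃ σ : Perm (Fin (2 * r + 2)),
        PM.map σ (ups (ms r)) = m := by
      intro m
      have hy : m 0 ≠ 0 := m.ne 0
      have h01 : (0 : Fin (2 * r + 2)) ≠ 1 := fun h => by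
        have := congrArg Fin.val h
        simp at this
      have h2 : PM.map (swap 1 (m 0)) m 0 = 1 := by
        rw [PM.map_apply, Equiv.symm_swap, swap_apply_of_ne_of_ne h01 hy.symm, swap_apply_right]
      obtain ⟨m', hm'⟩ := exists_ups _ h2
      obtain ⟨τ, hτ⟩ := ih m'
      refine ⟨(sh2 τ).trans (swap 1 (m 0)), ?_⟩
      rw [← PM.map_map, map_sh2_ups, hτ, ← hm', PM.map_map]
      have h3 : (swap 1 (m 0)).trans (swap 1 (m 0)) = Equiv.refl (Fin (2 * r + 2)) := by
        ext x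
        simp
      rw [h3, PM.map_refl]
    exact key m

end T7
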