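import Pool.Agent.W_868bb7_h16c.CatA
import Pool.Agent.W_868bb7_h16c.CmbA

/-!
# Invariance of the standard matching under its stabiliser
-/

set_option autoImplicit false

namespace T7

open CategoryTheory MonoidalCategory Equiv Pool.Agent.W_MP_868bb7_ag

universe v u w

variable {C : Type u} [Category.{v} C] [MonoidalCategory C] [SymmetricCategory C]
variable {M T : C} (P : Pairing M T)

/-- `Good r σ`: `σ` stabilises the standard matching and its action on `qs` is trivial -/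
def Good (r : ℕ) (σ : Perm (Fin (2 * r))) : Prop :=
  PM.map σ (ms r) = ms r ∧ act M (2 * r) σ ≫ qs P r = qs P r

theorem Good.mul {r : ℕ} {σ τ : Perm (Fin (2 * r))} (hσ : Good P r σ) (hτ : Good P r τ) :
    Good P r (σ * τ) := by
  refine ⟨?_, by rw [act_mul, Category.assoc, hσ.2, hτ.2]⟩
  have h : PM.map (σ * τ) (ms r) = PM.map σ (PM.map τ (ms r)) := rfl
  rw [h, hτ.1, hσ.1]

theorem Good.inv {r : ℕ} {σ : Perm (Fin (2 * r))} (hσ : Good P r σ) : Good P r σ⁻¹ := by
  constructor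
  · have h : PM.map σ⁻¹ (PM.map σ (ms r)) = ms r := (PM.map σ).symm_apply_apply (ms r)
    rw [hσ.1] at h
    exact h
  · have h : act M (2 * r) (σ * σ⁻¹) ≫ qs P r = qs P r := by
      rw [mul_inv_cancel, act_one, Category.id_comp]
    rw [act_mul, Category.assoc, hσ.2] at h
    exact h

theorem CatB_mapeq {n : ℕ} (g : Perm (Fin n)) (m : PM (Fin n)) (h : ∀ x, g (m x) = m (g x)) :
    PM.map g m = m := by
  refine PM.ext fun x => ?_
  rw [PM.map_apply, h, g.apply_symm_apply]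

theorem CatB_swap01 {n : ℕ} (m : PM (Fin n)) : PM.map (swap 0 1) (ups m) = ups m := by
  refine CatB_mapeq _ _ fun x => ?_
  refine Fin.cases ?_ (fun j => ?_) x
  · rw [ups_zero, swap_apply_right, swap_apply_left, ups_one]
  · refine Fin.cases ?_ (fun k => ?_) j
    · change swap 0 1 (ups m 1) = ups m (swap 0 1 1)
      rw [ups_one, swap_apply_left, swap_apply_right, ups_zero]
    · have h0 : ∀ k : Fin n, k.succ.succ ≠ 0 := fun k => Fin.succ_ne_zero _
      have h1 : ∀ k : Fin n, k.succ.succ ≠ 1 := fun k hk =>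
        Fin.succ_ne_zero k (Fin.succ_injective _ hk)
      rw [ups_succ, swap_apply_of_ne_of_ne (h0 _) (h1 _), swap_apply_of_ne_of_ne (h0 _) (h1 _),
        ups_succ]

/-- the exchange of the first two chords -/
def CatB_rho (n : ℕ) : Perm (Fin (n + 4)) := swap 1 2 * swap 0 1 * swap 2 3 * swap 1 2

theorem CatB_v3 (n : ℕ) : ((3 : Fin (n + 4)) : ℕ) = 3 := by
  change 3 % (n + 4) = 3
  exact Nat.mod_eq_of_lt (by omega)

theorem CatB_v2 (n : ℕ) : ((2 : Fin (n + 4)) : ℕ) = 2 := by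
  change 2 % (n + 4) = 2
  exact Nat.mod_eq_of_lt (by omega)

theorem CatB_v1 (n : ℕ) : ((1 : Fin (n + 4)) : ℕ) = 1 := by
  rw [Fin.val_one]

theorem CatB_v0 (n : ℕ) : ((0 : Fin (n + 4)) : ℕ) = 0 := rfl

theorem CatB_ne {n : ℕ} {a b : Fin (n + 4)} (h : (a : ℕ) ≠ (b : ℕ)) : a ≠ b := fun hh =>
  h (congrArg Fin.val hh)

theorem CatB_rho_aux (n : ℕ) : CatB_rho n 0 = 2 ∧ CatB_rho n 1 = 3 ∧ CatB_rho n 2 = 0 ∧
    CatB_rho n 3 = 1 := by
  have v0 := CatB_v0 n
  have v1 := CatB_v1 n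
  have v2 := CatB_v2 n
  have v3 := CatB_v3 n
  have n01 : (0 : Fin (n + 4)) ≠ 1 := CatB_ne (by omega)
  have n02 : (0 : Fin (n + 4)) ≠ 2 := CatB_ne (by omega)
  have n03 : (0 : Fin (n + 4)) ≠ 3 := CatB_ne (by omega)
  have n12 : (1 : Fin (n + 4)) ≠ 2 := CatB_ne (by omega)
  have n13 : (1 : Fin (n + 4)) ≠ 3 := CatB_ne (by omega)
  have n23 : (2 : Fin (n + 4)) ≠ 3 := CatB_ne (by omega)
  refine ⟨?_, ?_, ?_, ?_⟩
  · rw [CatB_rho, Perm.mul_apply, Perm.mul_apply, Perm.mul_apply,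
      swap_apply_of_ne_of_ne n01 n02, swap_apply_of_ne_of_ne n02 n03, swap_apply_left,
      swap_apply_left]
  · rw [CatB_rho, Perm.mul_apply, Perm.mul_apply, Perm.mul_apply,
      swap_apply_left, swap_apply_left, swap_apply_of_ne_of_ne n03.symm n13.symm,
      swap_apply_of_ne_of_ne n13.symm n23.symm]
  · rw [CatB_rho, Perm.mul_apply, Perm.mul_apply, Perm.mul_apply,
      swap_apply_right, swap_apply_of_ne_of_ne n12 n13, swap_apply_right,
      swap_apply_of_ne_of_ne n01 n02]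
  · rw [CatB_rho, Perm.mul_apply, Perm.mul_apply, Perm.mul_apply,
      swap_apply_of_ne_of_ne n13.symm n23.symm, swap_apply_right,
      swap_apply_of_ne_of_ne n02.symm n12.symm, swap_apply_right]

theorem CatB_rho0 (n : ℕ) : CatB_rho n 0 = 2 := (CatB_rho_aux n).1

theorem CatB_rho1 (n : ℕ) : CatB_rho n 1 = 3 := (CatB_rho_aux n).2.1

theorem CatB_rho2 (n : ℕ) : CatB_rho n 2 = 0 := (CatB_rho_aux n).2.2.1

theorem CatB_rho3 (n : ℕ) : CatB_rho n 3 = 1 := (CatB_rho_aux n).2.2.2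

theorem CatB_rhos (n : ℕ) (i : Fin n) :
    CatB_rho n i.succ.succ.succ.succ = i.succ.succ.succ.succ := by
  have h : ∀ a b : Fin (n + 4), (a : ℕ) < 4 → (b : ℕ) < 4 →
      swap a b i.succ.succ.succ.succ = i.succ.succ.succ.succ := by
    intro a b ha hb
    refine swap_apply_of_ne_of_ne (fun hh => ?_) (fun hh => ?_)
    · have := congrArg Fin.val hh
      simp only [Fin.val_succ] at this
      omega
    · have := congrArg Fin.val hh
      simp only [Fin.val_succ] at this
      omega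
  have v0 := CatB_v0 n
  have v1 := CatB_v1 n
  have v2 := CatB_v2 n
  have v3 := CatB_v3 n
  rw [CatB_rho, Perm.mul_apply, Perm.mul_apply, Perm.mul_apply, h 1 2 (by omega) (by omega),
    h 2 3 (by omega) (by omega), h 0 1 (by omega) (by omega), h 1 2 (by omega) (by omega)]

theorem CatB_map_rho {n : ℕ} (m : PM (Fin n)) :
    PM.map (CatB_rho n) (ups (ups m)) = ups (ups m) := by
  have e2 : (2 : Fin (n + 4)) = (0 : Fin (n + 2)).succ.succ := rfl
  have e3 : (3 : Fin (n + 4)) = (1 : Fin (n + 2)).succ.succ := by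
    rw [Fin.ext_iff, CatB_v3]
    simp
  have u0 : ups (ups m) 0 = 1 := ups_zero _
  have u1 : ups (ups m) 1 = 0 := ups_one _
  have u2 : ups (ups m) 2 = 3 := by rw [e2, ups_succ, ups_zero, e3]
  have u3 : ups (ups m) 3 = 2 := by rw [e3, ups_succ, ups_one, e2]
  have us : ∀ i : Fin n, ups (ups m) i.succ.succ.succ.succ = (m i).succ.succ.succ.succ := by
    intro i
    rw [ups_succ, ups_succ]
  refine CatB_mapeq _ _ fun x => ?_
  refine Fin.cases ?_ (fun x1 => ?_) x
  · rw [u0, CatB_rho1, CatB_rho0, u2]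
  refine Fin.cases ?_ (fun x2 => ?_) x1
  · change CatB_rho n (ups (ups m) 1) = ups (ups m) (CatB_rho n 1)
    rw [u1, CatB_rho1, CatB_rho0, u3]
  refine Fin.cases ?_ (fun x3 => ?_) x2
  · rw [← e2, u2, CatB_rho3, CatB_rho2, u0]
  refine Fin.cases ?_ (fun x4 => ?_) x3
  · have e3' : (Fin.succ (0 : Fin (n + 1))).succ.succ = (3 : Fin (n + 4)) := by
      rw [e3]
      rfl
    rw [e3', u3, CatB_rho3, CatB_rho2, u1]
  · rw [us, CatB_rhos, CatB_rhos, us]

/-- for every point `x` there is a good permutation moving `0` to `x` (induction on `r`) -/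
theorem exists_good (r : ℕ) (x : Fin (2 * (r + 1))) : ∃ σ, Good P (r + 1) σ ∧ σ 0 = x := by
  have hone : ∀ r, Good P r 1 := fun r => ⟨rfl, by rw [act_one, Category.id_comp]⟩
  have hsw : ∀ r, Good P (r + 1) (swap 0 1) := fun r =>
    ⟨CatB_swap01 (ms r), act_swap_qs P r⟩
  have hrho : ∀ r, Good P (r + 2) (CatB_rho (2 * r)) := fun r =>
    ⟨CatB_map_rho (ms r), act_rho_qs P r⟩
  have hsh : ∀ (r : ℕ) (τ : Perm (Fin (2 * r))), Good P r τ → Good P (r + 1) (sh2 τ) := by
    intro r τ hτ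
    refine ⟨?_, ?_⟩
    · change PM.map (sh2 τ) (ups (ms r)) = ups (ms r)
      rw [map_sh2_ups, hτ.1]
    · rw [act_sh2_qs, hτ.2]
      rfl
  induction r with
  | zero =>
    have key : ∀ x : Fin (0 + 2), ∃ σ, Good P (0 + 1) σ ∧ σ 0 = x := by
      intro x
      refine Fin.cases ?_ (fun j => ?_) x
      · exact ⟨1, hone _, rfl⟩
      · refine Fin.cases ?_ (fun k => k.elim0) j
        exact ⟨swap 0 1, hsw _, swap_apply_left _ _⟩
    exact key x
  | succ r ih =>
    have key : ∀ x : Fin (2 * (r + 1) + 2), ∃ σ, Good P (r + 1 + 1) σ ∧ σ 0 = x := by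
      intro x
      refine Fin.cases ?_ (fun j => ?_) x
      · exact ⟨1, hone _, rfl⟩
      · refine Fin.cases ?_ (fun k => ?_) j
        · exact ⟨swap 0 1, hsw _, swap_apply_left _ _⟩
        · obtain ⟨τ, hτ, h0⟩ := ih k
          refine ⟨sh2 τ * CatB_rho (2 * r), Good.mul P (hsh _ τ hτ) (hrho r), ?_⟩
          have h1 : CatB_rho (2 * r) 0 = 2 := CatB_rho0 _
          have h2 : (2 : Fin (2 * r + 4)) = (0 : Fin (2 * r + 2)).succ.succ := rfl
          change sh2 τ (CatB_rho (2 * r) 0) = k.succ.succ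
          rw [h1, h2]
          exact (sh2_succ τ 0).trans (by rw [← h0])
    exact key x

/-- the stabiliser of the standard matching acts trivially on `qs` -/
theorem act_stab (r : ℕ) (σ : Perm (Fin (2 * r))) (h : PM.map σ (ms r) = ms r) :
    act M (2 * r) σ ≫ qs P r = qs P r := by
  induction r with
  | zero =>
    have h1 : σ = 1 := Equiv.ext fun x => Fin.elim0 x
    rw [h1, act_one, Category.id_comp]
  | succ r ih =>
    obtain ⟨g, hg, hg0⟩ := exists_good P r (σ 0)
    have hstab : PM.map (g⁻¹ * σ) (ms (r + 1)) = ms (r + 1) := by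
      have h1 : PM.map (g⁻¹ * σ) (ms (r + 1)) = PM.map g⁻¹ (PM.map σ (ms (r + 1))) := rfl
      rw [h1, h]
      exact (Good.inv P hg).1
    have hz : (g⁻¹ * σ) 0 = 0 := by
      rw [Perm.mul_apply, ← hg0]
      exact g.symm_apply_apply 0
    have hone : (g⁻¹ * σ) 1 = 1 := by
      have h1 : PM.map (g⁻¹ * σ) (ms (r + 1)) ((g⁻¹ * σ) 0) = (g⁻¹ * σ) (ms (r + 1) 0) := by
        rw [PM.map_apply, Equiv.symm_apply_apply]
      rw [hstab, hz] at h1
      have h2 : ms (r + 1) 0 = 1 := ups_zero (ms r)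
      rw [h2] at h1
      exact h1.symm
    obtain ⟨e, he⟩ := exists_sh2 (g⁻¹ * σ) hz hone
    have he1 : PM.map e (ms r) = ms r := by
      apply ups_inj
      rw [← map_sh2_ups, ← he]
      exact hstab
    have h3 : act M (2 * (r + 1)) (g⁻¹ * σ) ≫ qs P (r + 1) = qs P (r + 1) := by
      have h4 := act_sh2_qs P r e
      rw [ih e he1] at h4
      rw [← qs_succ, ← he] at h4
      exact h4
    have h5 : σ = g * (g⁻¹ * σ) := by rw [mul_inv_cancel_left]
    rw [h5, act_mul, Category.assoc, hg.2]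
    exact h3

end T7
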