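import Pool.Agent.W_868bb7_h16c.CatB

/-!
# The morphism of a matching
-/

set_option autoImplicit false

namespace T7

open CategoryTheory MonoidalCategory Equiv Pool.Agent.W_MP_868bb7_ag

universe v u w

variable {C : Type u} [Category.{v} C] [MonoidalCategory C] [SymmetricCategory C]
variable {M T : C} (P : Pairing M T)

/-- the morphism `M^{⊗ 2r} ⟶ T^{⊗ r}` of a matching `m = σ · ms`: first `act σ⁻¹`, then `qs`
(it does not depend on the choice of `σ`, see `qm_map`) -/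
noncomputable def qm (r : ℕ) (m : PM (Fin (2 * r))) : pow M (2 * r) ⟶ pow T r :=
  act M (2 * r) (Classical.choose (exists_map_ms r m))⁻¹ ≫ qs P r

theorem CatC_sh2_inv {n : ℕ} (e : Perm (Fin n)) : (sh2 e)⁻¹ = sh2 e⁻¹ := by
  rw [inv_eq_iff_mul_eq_one]
  ext i
  refine Fin.cases ?_ (fun j => Fin.cases ?_ (fun k => ?_) j) i
  · rw [Perm.mul_apply, sh2_zero, sh2_zero, Perm.one_apply]
  · have h0 : (Fin.succ (0 : Fin (n + 1))) = 1 := rfl
    rw [Perm.mul_apply, h0, sh2_one, sh2_one, Perm.one_apply]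
  · rw [Perm.mul_apply, sh2_succ, sh2_succ, Perm.one_apply, ← Perm.mul_apply, mul_inv_cancel,
      Perm.one_apply]

theorem qm_ms_map (r : ℕ) (σ : Perm (Fin (2 * r))) :
    qm P r (PM.map σ (ms r)) = act M (2 * r) σ⁻¹ ≫ qs P r := by
  set τ : Perm (Fin (2 * r)) := Classical.choose (exists_map_ms r (PM.map σ (ms r))) with hτ
  have h1 : PM.map τ (ms r) = PM.map σ (ms r) :=
    Classical.choose_spec (exists_map_ms r (PM.map σ (ms r)))
  have h2 : PM.map (σ⁻¹ * τ) (ms r) = ms r := by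
    have h : PM.map (σ⁻¹ * τ) (ms r) = PM.map σ⁻¹ (PM.map τ (ms r)) := rfl
    rw [h, h1]
    exact (PM.map σ).symm_apply_apply (ms r)
  have h3 : σ⁻¹ = (σ⁻¹ * τ) * τ⁻¹ := by group
  rw [h3, act_mul, Category.assoc, act_stab P r _ h2]
  rfl

theorem qm_map (r : ℕ) (g : Perm (Fin (2 * r))) (m : PM (Fin (2 * r))) :
    qm P r (PM.map g m) = act M (2 * r) g⁻¹ ≫ qm P r m := by
  obtain ⟨σ, rfl⟩ := exists_map_ms r m
  have h : PM.map g (PM.map σ (ms r)) = PM.map (g * σ) (ms r) := rfl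
  rw [h, qm_ms_map, qm_ms_map, mul_inv_rev, act_mul, Category.assoc]

theorem qm_ups (r : ℕ) (m : PM (Fin (2 * r))) :
    qm P (r + 1) (ups m) = (α_ M M (pow M (2 * r))).inv ≫ (P.q ⊗ₘ qm P r m) := by
  obtain ⟨σ, rfl⟩ := exists_map_ms r m
  have h : ups (PM.map σ (ms r)) = PM.map (sh2 σ) (ms (r + 1)) := (map_sh2_ups σ (ms r)).symm
  have h2 : (sh2 σ)⁻¹ = sh2 σ⁻¹ := CatC_sh2_inv σ
  have h3 := qm_ms_map P (r + 1) (sh2 σ)
  rw [h2] at h3
  rw [qm_ms_map]
  exact (congrArg (qm P (r + 1)) h).trans (h3.trans (act_sh2_qs P r σ⁻¹))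

end T7
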