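import Pool.Agent.W_868bb7_h16c.CatC

/-!
# Contraction of the first two points
-/

set_option autoImplicit false

namespace T7

open CategoryTheory MonoidalCategory Equiv Pool.Agent.W_MP_868bb7_ag

universe v u w

variable {C : Type u} [Category.{v} C] [MonoidalCategory C] [SymmetricCategory C]
variable {M T : C} (P : Pairing M T)

/-- insert the copairing in the first two positions -/
def kap (n : ℕ) : T ⊗ pow M n ⟶ pow M (n + 2) := P.c ▷ pow M n ≫ (α_ M M (pow M n)).hom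

/-- the basic zigzag -/
theorem zig2 : P.c ▷ M ≫ (α_ M M M).hom ≫ M ◁ (β_ M M).hom ≫ (α_ M M M).inv ≫ P.q ▷ M =
    𝟙 (T ⊗ M) := by
  have h1 : P.c ▷ M ≫ (β_ (M ⊗ M) M).hom = (β_ T M).hom ≫ M ◁ P.c :=
    BraidedCategory.braiding_naturality_left P.c M
  have h2 : P.c ▷ M = (β_ T M).hom ≫ M ◁ P.c ≫ (β_ M (M ⊗ M)).hom := by
    rw [← Category.assoc, ← h1, Category.assoc, SymmetricCategory.symmetry, Category.comp_id]
  have h3 : (β_ M (M ⊗ M)).hom = (α_ M M M).inv ≫ (β_ M M).hom ▷ M ≫ (α_ M M M).hom ≫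
      M ◁ (β_ M M).hom ≫ (α_ M M M).inv := by
    rw [BraidedCategory.braiding_tensor_right_hom]
  have h4 : M ◁ (β_ M M).hom ≫ M ◁ (β_ M M).hom = 𝟙 _ := by
    rw [← MonoidalCategory.whiskerLeft_comp, SymmetricCategory.symmetry,
      MonoidalCategory.whiskerLeft_id]
  have h5 : (β_ M M).hom ▷ M ≫ P.q ▷ M = P.q ▷ M := by
    rw [← MonoidalCategory.comp_whiskerRight, P.q_symm]
  rw [h2, h3]
  simp only [Category.assoc, Iso.inv_hom_id_assoc]
  rw [reassoc_of% h4, Iso.hom_inv_id_assoc, h5, P.zig, SymmetricCategory.symmetry]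

/-- the zigzag with the second pairing: contraction of `{0, 2}, {1, 3}` at `0, 1` -/
theorem zig4 (N : C) {Z : C} (h : N ⟶ Z) :
    (P.c ▷ (M ⊗ (M ⊗ N)) ≫ (α_ M M (M ⊗ (M ⊗ N))).hom) ≫ M ◁ sw M (M ⊗ N) ≫
      (α_ M M (M ⊗ (M ⊗ N))).inv ≫ (P.q ⊗ₘ ((α_ M M N).inv ≫ (P.q ⊗ₘ h))) =
    T ◁ ((α_ M M N).inv ≫ (P.q ⊗ₘ h)) := by
  have key : (P.c ▷ (M ⊗ (M ⊗ N)) ≫ (α_ M M (M ⊗ (M ⊗ N))).hom) ≫ M ◁ sw M (M ⊗ N) ≫
      (α_ M M (M ⊗ (M ⊗ N))).inv ≫ P.q ▷ (M ⊗ (M ⊗ N)) =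
      (α_ T M (M ⊗ N)).inv ≫ (P.c ▷ M ≫ (α_ M M M).hom ≫ M ◁ (β_ M M).hom ≫
        (α_ M M M).inv ≫ P.q ▷ M) ▷ (M ⊗ N) ≫ (α_ T M (M ⊗ N)).hom := by
    simp only [sw]
    monoidal
  rw [zig2, MonoidalCategory.id_whiskerRight, Category.id_comp, Iso.inv_hom_id] at key
  rw [MonoidalCategory.tensorHom_def P.q ((α_ M M N).inv ≫ (P.q ⊗ₘ h))]
  simp only [Category.assoc] at key ⊢
  rw [reassoc_of% key]

theorem kap_act (n : ℕ) (e : Perm (Fin n)) :
    kap P n ≫ act M (n + 2) (sh2 e) = T ◁ act M n e ≫ kap P n := by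
  rw [act_sh2]
  unfold kap
  rw [Category.assoc]
  have h1 : (α_ M M (pow M n)).hom ≫ M ◁ (M ◁ act M n e) =
      (M ⊗ M) ◁ act M n e ≫ (α_ M M (pow M n)).hom := by
    rw [← MonoidalCategory.associator_naturality_right]
  have h2 : P.c ▷ pow M n ≫ (M ⊗ M) ◁ act M n e = T ◁ act M n e ≫ P.c ▷ pow M n :=
    (MonoidalCategory.whisker_exchange P.c (act M n e)).symm
  refine (congrArg (fun t => P.c ▷ pow M n ≫ t) h1).trans ?_
  rw [reassoc_of% h2]
  rfl

theorem sh2_inv {n : ℕ} (e : Perm (Fin n)) : (sh2 e)⁻¹ = sh2 e⁻¹ := by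
  rw [inv_eq_iff_mul_eq_one]
  ext y : 1
  refine Fin.cases ?_ (fun j => ?_) y
  · rw [Perm.mul_apply, sh2_zero, sh2_zero]
    rfl
  · refine Fin.cases ?_ (fun k => ?_) j
    · have h := sh2_one e
      have h' := sh2_one e⁻¹
      change sh2 e (sh2 e⁻¹ 1) = 1
      rw [h', h]
    · rw [Perm.mul_apply, sh2_succ, sh2_succ, ← Perm.mul_apply, mul_inv_cancel]
      rfl

/-- the two ways to write the matching with the chords `{0, 2}, {1, 3}` -/
theorem CatD_match {n : ℕ} (m : PM (Fin n)) :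
    PM.map (swap (1 : Fin (n + 2)).succ.succ (0 : Fin (n + 2 + 2))) (ups (ups m)) =
      PM.map (swap (1 : Fin (n + 2 + 2)) (2 : Fin (n + 2 + 2))) (ups (ups m)) := by
  have e2 : (2 : Fin (n + 2 + 2)) = (0 : Fin (n + 2)).succ.succ := rfl
  set t : Fin (n + 2 + 2) := (1 : Fin (n + 2)).succ.succ with ht
  have h0 : ups (ups m) 0 = 1 := ups_zero _
  have h1 : ups (ups m) 1 = 0 := ups_one _
  have h2 : ups (ups m) 2 = t := by
    rw [e2, ups_succ, ups_zero]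
  have h3 : ups (ups m) t = 2 := by
    rw [ht, ups_succ, ups_one, e2]
  have h4 : ∀ i : Fin n, ups (ups m) i.succ.succ.succ.succ = (m i).succ.succ.succ.succ := by
    intro i
    rw [ups_succ, ups_succ]
  have n01 : (0 : Fin (n + 2 + 2)) ≠ 1 := by
    intro h; exact absurd (congrArg Fin.val h) (by simp)
  have n02 : (0 : Fin (n + 2 + 2)) ≠ 2 := by
    rw [e2]; exact (Fin.succ_ne_zero _).symm
  have n12 : (1 : Fin (n + 2 + 2)) ≠ 2 := by
    rw [e2]
    intro h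
    have h' : (0 : Fin (n + 3)).succ = (0 : Fin (n + 2)).succ.succ := h
    exact (Fin.succ_ne_zero _).symm (Fin.succ_injective _ h')
  have n0t : (0 : Fin (n + 2 + 2)) ≠ t := (Fin.succ_ne_zero _).symm
  have n1t : (1 : Fin (n + 2 + 2)) ≠ t := by
    intro h
    have h' : (0 : Fin (n + 3)).succ = (1 : Fin (n + 2)).succ.succ := h
    exact (Fin.succ_ne_zero _).symm (Fin.succ_injective _ h')
  have n2t : (2 : Fin (n + 2 + 2)) ≠ t := by
    rw [e2]
    intro h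
    have h' := Fin.succ_injective _ (Fin.succ_injective _ h)
    exact absurd (congrArg Fin.val h') (by simp)
  have f4 : ∀ i : Fin n, i.succ.succ.succ.succ ≠ 0 ∧ i.succ.succ.succ.succ ≠ 1 ∧
      i.succ.succ.succ.succ ≠ 2 ∧ i.succ.succ.succ.succ ≠ t := by
    intro i
    refine ⟨Fin.succ_ne_zero _, ?_, ?_, ?_⟩
    · intro h
      have h' : i.succ.succ.succ.succ = (0 : Fin (n + 3)).succ := h
      exact Fin.succ_ne_zero _ (Fin.succ_injective _ h')
    · rw [e2]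
      intro h
      exact Fin.succ_ne_zero _ (Fin.succ_injective _ (Fin.succ_injective _ h))
    · intro h
      have h' := Fin.succ_injective _ (Fin.succ_injective _ h)
      have h'' : i.succ.succ = (0 : Fin (n + 1)).succ := h'
      exact Fin.succ_ne_zero _ (Fin.succ_injective _ h'')
  ext y : 1
  simp only [PM.map_apply, Equiv.symm_swap]
  have hy : y = 0 ∨ y = 1 ∨ y = 2 ∨ y = t ∨ ∃ i : Fin n, y = i.succ.succ.succ.succ := by
    refine Fin.cases (Or.inl rfl) (fun y => ?_) y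
    refine Fin.cases (Or.inr (Or.inl rfl)) (fun y => ?_) y
    refine Fin.cases (Or.inr (Or.inr (Or.inl rfl))) (fun y => ?_) y
    refine Fin.cases (Or.inr (Or.inr (Or.inr (Or.inl rfl)))) (fun y => ?_) y
    exact Or.inr (Or.inr (Or.inr (Or.inr ⟨y, rfl⟩)))
  rcases hy with rfl | rfl | rfl | h | ⟨i, rfl⟩
  · rw [swap_apply_right, h3, swap_apply_of_ne_of_ne n2t n02.symm,
      swap_apply_of_ne_of_ne n01 n02, h0, swap_apply_left]
  · rw [swap_apply_of_ne_of_ne n1t n01.symm, h1, swap_apply_right, swap_apply_left, h2,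
      swap_apply_of_ne_of_ne n1t.symm n2t.symm]
  · rw [swap_apply_of_ne_of_ne n2t n02.symm, h2, swap_apply_left, swap_apply_right, h1,
      swap_apply_of_ne_of_ne n01 n02]
  · rw [h, swap_apply_left, h0, swap_apply_of_ne_of_ne n1t n01.symm,
      swap_apply_of_ne_of_ne n1t.symm n2t.symm, h3, swap_apply_right]
  · obtain ⟨a, b, c, d⟩ := f4 i
    obtain ⟨a', b', c', d'⟩ := f4 (m i)
    rw [swap_apply_of_ne_of_ne d a, h4, swap_apply_of_ne_of_ne d' a',
      swap_apply_of_ne_of_ne b c, h4, swap_apply_of_ne_of_ne b' c']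

theorem kap_swap_base (r : ℕ) (m : PM (Fin (2 * r))) :
    kap P (2 * (r + 1)) ≫ qm P (r + 1 + 1) (PM.map (swap (1 : Fin (2 * r + 2)).succ.succ
      (0 : Fin (2 * r + 2 + 2))) (ups (ups m))) = T ◁ qm P (r + 1) (ups m) := by
  have e1 := CatD_match m
  have e2 := qm_map P (r + 1 + 1) (swap (1 : Fin (2 * r + 2 + 2)) (2 : Fin (2 * r + 2 + 2)))
    (ups (ups m))
  have e3 : (swap (1 : Fin (2 * r + 2 + 2)) (2 : Fin (2 * r + 2 + 2)))⁻¹ =
      shift (swap (0 : Fin (2 * r + 3)) 1) := by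
    rw [swap_inv]
    ext y : 1
    refine Fin.cases ?_ (fun y => ?_) y
    · rw [shift_zero, swap_apply_of_ne_of_ne]
      · intro h; exact absurd (congrArg Fin.val h) (by simp)
      · exact (Fin.succ_ne_zero (1 : Fin (2 * r + 3))).symm
    · rw [shift_succ]
      have h1 : (1 : Fin (2 * r + 2 + 2)) = (0 : Fin (2 * r + 3)).succ := rfl
      have h2 : (2 : Fin (2 * r + 2 + 2)) = (1 : Fin (2 * r + 3)).succ := rfl
      rw [h1, h2, swap_apply_def, swap_apply_def]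
      simp only [Fin.succ_inj]
      split_ifs <;> rfl
  have e4 : act M (2 * r + 2 + 2) (shift (swap (0 : Fin (2 * r + 3)) 1)) =
      M ◁ sw M (M ⊗ pow M (2 * r)) := by
    rw [act_shift]
    have h := act_swap M (2 * r + 1)
    rw [h]
    rfl
  have e5 := qm_ups P (r + 1) (ups m)
  have e6 := qm_ups P r m
  have e7 := zig4 P (pow M (2 * r)) (qm P r m)
  have e8 : qm P (r + 1 + 1) (ups (ups m)) = (α_ M M (M ⊗ (M ⊗ pow M (2 * r)))).inv ≫
      (P.q ⊗ₘ ((α_ M M (pow M (2 * r))).inv ≫ (P.q ⊗ₘ qm P r m))) :=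
    e5.trans (congrArg (fun t => (α_ M M (M ⊗ (M ⊗ pow M (2 * r)))).inv ≫ (P.q ⊗ₘ t)) e6)
  have e9 : act M (2 * (r + 1 + 1)) (swap (1 : Fin (2 * r + 2 + 2)) (2 : Fin (2 * r + 2 + 2)))⁻¹ =
      M ◁ sw M (M ⊗ pow M (2 * r)) := by
    rw [e3]
    exact e4
  have e10 : qm P (r + 1 + 1) (PM.map (swap (1 : Fin (2 * r + 2 + 2)) (2 : Fin (2 * r + 2 + 2)))
      (ups (ups m))) = M ◁ sw M (M ⊗ pow M (2 * r)) ≫
        (α_ M M (M ⊗ (M ⊗ pow M (2 * r)))).inv ≫
      (P.q ⊗ₘ ((α_ M M (pow M (2 * r))).inv ≫ (P.q ⊗ₘ qm P r m))) :=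
    e2.trans (congrArg₂ (fun s t => s ≫ t) e9 e8)
  rw [e1]
  exact (congrArg (fun t => kap P (2 * (r + 1)) ≫ t) e10).trans
    (e7.trans (congrArg (fun t => T ◁ t) e6.symm))

theorem kap_swap_map (r : ℕ) (m : PM (Fin (2 * r))) (x : Fin (2 * r)) (τ : Perm (Fin (2 * r)))
    (h : kap P (2 * r) ≫ qm P (r + 1) (PM.map (swap x.succ.succ 0) (ups m)) = T ◁ qm P r m) :
    kap P (2 * r) ≫ qm P (r + 1) (PM.map (swap (τ x).succ.succ 0) (ups (PM.map τ m))) =
      T ◁ qm P r (PM.map τ m) := by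
  have h1 : PM.map (swap (τ x).succ.succ (0 : Fin (2 * r + 2))) (ups (PM.map τ m)) =
      PM.map (sh2 τ) (PM.map (swap x.succ.succ (0 : Fin (2 * r + 2))) (ups m)) := by
    rw [← map_sh2_ups, PM.map_map, PM.map_map]
    congr 2
    have h2 : (swap (τ x).succ.succ (0 : Fin (2 * r + 2))) * sh2 τ =
        sh2 τ * swap x.succ.succ (0 : Fin (2 * r + 2)) := by
      rw [Equiv.mul_swap_eq_swap_mul, sh2_succ, sh2_zero]
    exact h2
  have h3 := qm_map P (r + 1) (sh2 τ) (PM.map (swap x.succ.succ (0 : Fin (2 * r + 2))) (ups m))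
  have h4 : kap P (2 * r) ≫ act M (2 * r + 2) (sh2 τ⁻¹) = T ◁ act M (2 * r) τ⁻¹ ≫ kap P (2 * r) :=
    kap_act P (2 * r) τ⁻¹
  rw [h1]
  refine (congrArg (fun t => kap P (2 * r) ≫ t) h3).trans ?_
  rw [sh2_inv]
  refine (Category.assoc _ _ _).symm.trans ?_
  refine (congrArg (fun t => t ≫ qm P (r + 1) _) h4).trans ?_
  refine (Category.assoc _ _ _).trans ?_
  refine (congrArg (fun t => T ◁ act M (2 * r) τ⁻¹ ≫ t) h).trans ?_
  exact (MonoidalCategory.whiskerLeft_comp _ _ _).symm.trans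
    (congrArg (fun t => T ◁ t) (qm_map P r τ m).symm)

theorem exists_perm_two {n : ℕ} (a b c d : Fin n) (h : a ≠ b) (h' : c ≠ d) :
    ∃ σ : Perm (Fin n), σ a = c ∧ σ b = d := by
  refine ⟨swap (swap b d a) c * swap b d, ?_, ?_⟩
  · rw [Perm.mul_apply, swap_apply_left]
  · rw [Perm.mul_apply, swap_apply_left, swap_apply_of_ne_of_ne]
    · intro h1
      have h2 : swap b d b = swap b d a := by rw [swap_apply_left]; exact h1
      exact h ((swap b d).injective h2).symm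
    · exact h'.symm

theorem kap_swap (r : ℕ) (m : PM (Fin (2 * r))) (x : Fin (2 * r)) :
    kap P (2 * r) ≫ qm P (r + 1) (PM.map (swap x.succ.succ 0) (ups m)) = T ◁ qm P r m := by
  cases r with
  | zero => exact absurd x.2 (by omega)
  | succ r =>
    obtain ⟨σ, hσ0, hσ1⟩ := exists_perm_two (0 : Fin (2 * (r + 1))) 1 (m x) x
      (by intro h; exact absurd (congrArg Fin.val h) (by simp)) (m.ne x)
    have h1 : (PM.map σ).symm m 0 = 1 := by
      rw [PM.map_symm, PM.map_apply, Equiv.symm_symm, hσ0, PM.inv, ← hσ1, Equiv.symm_apply_apply]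
    obtain ⟨m2, hm2⟩ := exists_ups (n := 2 * r) ((PM.map σ).symm m) h1
    have h2 : m = PM.map σ (ups m2) := by
      rw [← hm2]
      exact ((PM.map σ).apply_symm_apply m).symm
    have h3 := kap_swap_map P (r + 1) (ups m2) 1 σ (kap_swap_base P r m2)
    rw [hσ1, ← h2] at h3
    exact h3

variable [Preadditive C] {K : Type w} [Field K] [Linear K C] [MonoidalPreadditive C]
  [MonoidalLinear K C]

theorem kap_ups {δ : K} (hδ : P.c ≫ P.q = δ • 𝟙 T) (r : ℕ) (m : PM (Fin (2 * r))) :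
    kap P (2 * r) ≫ qm P (r + 1) (ups m) = δ • (T ◁ qm P r m) := by
  have h1 : kap P (2 * r) ≫ qm P (r + 1) (ups m) =
      (P.c ▷ pow M (2 * r) ≫ (α_ M M (pow M (2 * r))).hom) ≫
        (α_ M M (pow M (2 * r))).inv ≫ (P.q ⊗ₘ qm P r m) :=
    congrArg (fun t => kap P (2 * r) ≫ t) (qm_ups P r m)
  rw [h1, Category.assoc, Iso.hom_inv_id_assoc, MonoidalCategory.tensorHom_def,
    ← Category.assoc, ← MonoidalCategory.comp_whiskerRight, hδ,
    MonoidalLinear.smul_whiskerRight, MonoidalCategory.id_whiskerRight, Linear.smul_comp,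
    Category.id_comp]

omit [MonoidalPreadditive C] in
theorem T_faithful [MonoidalPreadditive C] (P : Pairing M T) {A B : C} (f : A ⟶ B) (h : T ◁ f = 0) : f = 0 := by
  have h1 : (P.T' ⊗ T) ◁ f = 0 := by
    rw [MonoidalCategory.tensor_whiskerLeft, h]
    simp
  have h2 : (β_ P.T' T).hom ▷ A ≫ (T ⊗ P.T') ◁ f = (P.T' ⊗ T) ◁ f ≫ (β_ P.T' T).hom ▷ B :=
    (MonoidalCategory.whisker_exchange _ _).symm
  have h3 : (T ⊗ P.T') ◁ f = 0 := by
    have h4 : (β_ P.T' T).inv ▷ A ≫ (β_ P.T' T).hom ▷ A ≫ (T ⊗ P.T') ◁ f = 0 := by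
      rw [h2, h1]
      simp
    rw [← Category.assoc, ← MonoidalCategory.comp_whiskerRight, Iso.inv_hom_id,
      MonoidalCategory.id_whiskerRight, Category.id_comp] at h4
    exact h4
  have h5 : P.e.inv ▷ A ≫ (T ⊗ P.T') ◁ f = (𝟙_ C) ◁ f ≫ P.e.inv ▷ B :=
    (MonoidalCategory.whisker_exchange _ _).symm
  have h6 : (𝟙_ C) ◁ f = 0 := by
    have h7 : (𝟙_ C) ◁ f ≫ P.e.inv ▷ B ≫ P.e.hom ▷ B = 0 := by
      rw [← Category.assoc, ← h5, h3]
      simp
    rw [← MonoidalCategory.comp_whiskerRight, Iso.inv_hom_id,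
      MonoidalCategory.id_whiskerRight, Category.comp_id] at h7
    exact h7
  rw [MonoidalCategory.id_whiskerLeft] at h6
  have h8 : (λ_ A).inv ≫ ((λ_ A).hom ≫ f ≫ (λ_ B).inv) ≫ (λ_ B).hom = 0 := by
    rw [h6]
    simp
  simpa using h8

end T7
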