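import Pool.Agent.W_868bb7_h16.Sys

/-!
# Summation over the matchings of `α ⊕ Bool`
-/

set_option autoImplicit false

namespace T7

open Equiv

/-- A matching of `α ⊕ Bool` with the chord `{false, true}`. -/
theorem CmbB_chord {α : Type*} (m : PM (α ⊕ Bool)) (h : m (Sum.inr true) = Sum.inr false) :
    ∃ m₁ : PM α, m = PM.sum m₁ PM.bool := by
  have h' : m (Sum.inr false) = Sum.inr true := by rw [← h, m.inv]
  obtain ⟨m1, m2, hm⟩ := m.exists_sum (by
    intro x
    rcases hx : m (Sum.inl x) with y | y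
    · exact ⟨y, rfl⟩
    · exfalso
      have h2 : m (Sum.inr y) = Sum.inl x := by rw [← hx, m.inv]
      cases y
      · rw [h'] at h2
        exact absurd h2 (by simp)
      · rw [h] at h2
        exact absurd h2 (by simp))
  exact ⟨m1, by rw [hm, PM.eq_bool m2]⟩

/-- The parametrisation of the matchings of `α ⊕ Bool`. -/
def CmbB_map {α : Type*} [DecidableEq α] (p : PM α × Option α) : PM (α ⊕ Bool) :=
  match p.2 with
  | none => PM.sum p.1 PM.bool
  | some x => PM.map (swap (Sum.inl x) (Sum.inr false) : Perm (α ⊕ Bool)) (PM.sum p.1 PM.bool)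

theorem CmbB_none {α : Type*} [DecidableEq α] (m₁ : PM α) :
    CmbB_map (m₁, none) (Sum.inr true) = Sum.inr false := rfl

theorem CmbB_swap {α : Type*} [DecidableEq α] (x : α) :
    (swap (Sum.inl x) (Sum.inr false) : Perm (α ⊕ Bool)) (Sum.inr true) = Sum.inr true :=
  swap_apply_of_ne_of_ne (by simp) (by simp)

theorem CmbB_some {α : Type*} [DecidableEq α] (m₁ : PM α) (x : α) :
    CmbB_map (m₁, some x) (Sum.inr true) = Sum.inl x := by
  change (swap (Sum.inl x) (Sum.inr false) : Perm (α ⊕ Bool)) (PM.sum m₁ PM.bool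
    ((swap (Sum.inl x) (Sum.inr false) : Perm (α ⊕ Bool)).symm (Sum.inr true))) = Sum.inl x
  rw [symm_swap, CmbB_swap, PM.sum_inr, PM.bool_apply]
  exact swap_apply_right _ _

theorem CmbB_map_map {α : Type*} [DecidableEq α] (x : α) (m : PM (α ⊕ Bool)) :
    PM.map (swap (Sum.inl x) (Sum.inr false) : Perm (α ⊕ Bool))
      (PM.map (swap (Sum.inl x) (Sum.inr false) : Perm (α ⊕ Bool)) m) = m := by
  ext y
  rw [PM.map_apply, PM.map_apply, symm_swap, swap_apply_self, swap_apply_self]

theorem CmbB_bij {α : Type*} [DecidableEq α] :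
    Function.Bijective (CmbB_map (α := α)) := by
  constructor
  · rintro ⟨m, o⟩ ⟨m', o'⟩ h
    have h1 : CmbB_map (m, o) (Sum.inr true) = CmbB_map (m', o') (Sum.inr true) := by rw [h]
    cases o with
    | none =>
      cases o' with
      | none =>
        have h2 : PM.sum m PM.bool = PM.sum m' PM.bool := h
        rw [(PM.sum_inj h2).1]
      | some x' =>
        rw [CmbB_none, CmbB_some] at h1
        exact absurd h1 (by simp)
    | some x =>
      cases o' with
      | none =>
        rw [CmbB_none, CmbB_some] at h1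
        exact absurd h1 (by simp)
      | some x' =>
        rw [CmbB_some, CmbB_some] at h1
        have hx : x = x' := Sum.inl_injective h1
        subst hx
        have h2 : PM.sum m PM.bool = PM.sum m' PM.bool :=
          (PM.map (swap (Sum.inl x) (Sum.inr false) : Perm (α ⊕ Bool))).injective h
        rw [(PM.sum_inj h2).1]
  · intro m
    rcases hm : m (Sum.inr true) with x | y
    · obtain ⟨m₁, h1⟩ := CmbB_chord
        (PM.map (swap (Sum.inl x) (Sum.inr false) : Perm (α ⊕ Bool)) m) (by
          rw [PM.map_apply, symm_swap, CmbB_swap, hm]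
          exact swap_apply_left _ _)
      refine ⟨(m₁, some x), ?_⟩
      change PM.map (swap (Sum.inl x) (Sum.inr false) : Perm (α ⊕ Bool)) (PM.sum m₁ PM.bool) = m
      rw [← h1, CmbB_map_map]
    · cases y
      · obtain ⟨m₁, h1⟩ := CmbB_chord m hm
        exact ⟨(m₁, none), h1.symm⟩
      · exact absurd hm (m.ne _)

/-- every matching of `α ⊕ Bool` is `m₁ ⊔ chord` or `(x false) (m₁ ⊔ chord)`, in a unique way -/
theorem sum_PM {α A : Type*} [Fintype α] [DecidableEq α] [AddCommMonoid A]
    (G : PM (α ⊕ Bool) → A) :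
    ∑ m, G m = ∑ m₁ : PM α, (G (PM.sum m₁ PM.bool) + ∑ x : α,
      G (PM.map (swap (Sum.inl x) (Sum.inr false) : Perm (α ⊕ Bool)) (PM.sum m₁ PM.bool))) := by
  rw [← CmbB_bij.sum_comp G, Fintype.sum_prod_type]
  refine Finset.sum_congr rfl fun m₁ _ => ?_
  rw [Fintype.sum_option]
  rfl

end T7
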