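import Pool.Agent.W_868bb7_h16.OfFin
import Pool.Agent.W_MP_868bb7_ag.PowAct

/-!
# Self-dual objects, the standard matching as a morphism (T7, category side)

`q : M ⊗ M ⟶ T` symmetric, `T` invertible with trivial symmetry, `c : T ⟶ M ⊗ M` the copairing.
-/

set_option autoImplicit false

namespace T7

open CategoryTheory MonoidalCategory Equiv Pool.Agent.W_MP_868bb7_ag

universe v u w

section comb

/-- add the chord `{0, 1}` in front -/
def ups {n : ℕ} (m : PM (Fin n)) : PM (Fin (n + 2)) := PM.map (eF n) (PM.sum m PM.bool)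

/-- the standard matching `{0, 1}, {2, 3}, ...` of `Fin (2 * r)` -/
def ms : (r : ℕ) → PM (Fin (2 * r))
  | 0 => ⟨fun x => Fin.elim0 x, fun x => Fin.elim0 x, fun x => Fin.elim0 x⟩
  | r + 1 => ups (ms r)

/-- `e` on the points `2, 3, ...` -/
def sh2 {n : ℕ} (e : Perm (Fin n)) : Perm (Fin (n + 2)) := shift (shift e)

theorem sh2_succ {n : ℕ} (e : Perm (Fin n)) (i : Fin n) :
    sh2 e i.succ.succ = (e i).succ.succ := by
  unfold sh2
  rw [shift_succ, shift_succ]

theorem sh2_zero {n : ℕ} (e : Perm (Fin n)) : sh2 e 0 = 0 := shift_zero _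

theorem sh2_one {n : ℕ} (e : Perm (Fin n)) : sh2 e 1 = 1 := by
  have h := shift_succ (shift e) 0
  rw [shift_zero] at h
  exact h

end comb

variable {C : Type u} [Category.{v} C] [MonoidalCategory C] [SymmetricCategory C]

/-- A symmetric perfect pairing of `M` with values in `T`, where `T` is invertible and has
trivial symmetry. -/
structure Pairing (M T : C) where
  /-- the pairing -/
  q : M ⊗ M ⟶ T
  /-- the copairing -/
  c : T ⟶ M ⊗ M
  q_symm : (β_ M M).hom ≫ q = q
  zig : M ◁ c ≫ (α_ M M M).inv ≫ q ▷ M = (β_ M T).hom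
  T_symm : (β_ T T).hom = 𝟙 _
  /-- the inverse of `T` -/
  T' : C
  e : T ⊗ T' ≅ 𝟙_ C

variable {M T : C} (P : Pairing M T)

/-- the standard matching `{0, 1}, {2, 3}, ...` as a morphism -/
def qs : (r : ℕ) → (pow M (2 * r) ⟶ pow T r)
  | 0 => 𝟙 _
  | r + 1 => (α_ M M (pow M (2 * r))).inv ≫ (P.q ⊗ₘ qs r)

theorem qs_succ (r : ℕ) : qs P (r + 1) = (α_ M M (pow M (2 * r))).inv ≫ (P.q ⊗ₘ qs P r) := rfl

end T7
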