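import Pool.Agent.W_868bb7_h16c.CatD
import Pool.Agent.W_MP_868bb7_ag.TraceK

/-!
# The parameter of the relation system is the dimension of `M`
-/

set_option autoImplicit false

namespace T7

open CategoryTheory MonoidalCategory Equiv Pool.Agent.W_MP_868bb7_ag

universe v u w

variable {C : Type u} [Category.{v} C] [MonoidalCategory C] [SymmetricCategory C]
  [RightRigidCategory C] [Preadditive C] {K : Type w} [Field K] [Linear K C]
  [MonoidalPreadditive C] [MonoidalLinear K C] [UnitK K C]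
variable {M T : C} (P : Pairing M T)

/-- `c ≫ q = dim M`: take the partial trace of the zigzag `zig2` -/
theorem c_q : P.c ≫ P.q = Pool.Agent.W_MP_868bb7_ag.tr K (𝟙 M) • 𝟙 T := by
  have h := congrArg (ptr M) (zig2 P)
  have h1 : ptr M (𝟙 (T ⊗ M)) = Pool.Agent.W_MP_868bb7_ag.tr K (𝟙 M) • 𝟙 T := by
    rw [← MonoidalCategory.whiskerLeft_id, ptr_whiskerLeft K]
  rw [h1, ptr_nat_left] at h
  have h2 : (α_ M M M).hom ≫ M ◁ (β_ M M).hom ≫ (α_ M M M).inv ≫ P.q ▷ M =
      ((α_ M M M).hom ≫ M ◁ (β_ M M).hom ≫ (α_ M M M).inv) ≫ P.q ▷ M := by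
    simp only [Category.assoc]
  rw [h2, ptr_nat_right, ptr_whisker, ptr_braid, MonoidalCategory.whiskerLeft_id,
    Category.id_comp] at h
  exact h

omit [SymmetricCategory C] [RightRigidCategory C] [MonoidalPreadditive C]
  [MonoidalLinear K C] in
theorem unit_smul_inj (a : K) (h : a • 𝟙 (𝟙_ C) = 0) : a = 0 := by
  have h1 := (UnitK.bij (K := K) (C := C)).1
  apply h1
  change a • 𝟙 (𝟙_ C) = (0 : K) • 𝟙 (𝟙_ C)
  rw [h, zero_smul]

end T7
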