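import Pool.Agent.W_868bb7_h16c.CatD
import Pool.Agent.W_868bb7_h16c.CmbB

/-!
# The relation system of a self-dual object
-/

set_option autoImplicit false

namespace T7

open CategoryTheory MonoidalCategory Equiv Pool.Agent.W_MP_868bb7_ag

universe v u w

variable {C : Type u} [Category.{v} C] [MonoidalCategory C] [SymmetricCategory C]
  [Preadditive C] {K : Type w} [Field K] [Linear K C] [MonoidalPreadditive C]
  [MonoidalLinear K C]
variable {M T : C} (P : Pairing M T)

/-- the evaluation of a combination of matchings -/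
noncomputable def ev (r : ℕ) : (PM (Fin (2 * r)) → K) →ₗ[K] (pow M (2 * r) ⟶ pow T r) :=
  Fintype.linearCombination K (fun m => qm P r m)

omit [MonoidalPreadditive C] [MonoidalLinear K C] in
theorem ev_apply (r : ℕ) (f : PM (Fin (2 * r)) → K) : ev P r f = ∑ m, f m • qm P r m :=
  Fintype.linearCombination_apply K _ f

omit [MonoidalPreadditive C] [MonoidalLinear K C] in
theorem Rel_ev_comp (r : ℕ) (f : PM (Fin (2 * r)) → K) {X : C} (k : X ⟶ pow M (2 * r)) :
    k ≫ ev P r f = ∑ m, f m • (k ≫ qm P r m) := by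
  rw [ev_apply, Preadditive.comp_sum]
  exact Finset.sum_congr rfl fun m _ => by rw [Linear.comp_smul]

theorem Rel_whisker (r : ℕ) (f : PM (Fin (2 * r)) → K) (X : C) :
    X ◁ ev P r f = ∑ m, f m • (X ◁ qm P r m) := by
  rw [ev_apply, whiskerLeft_sum]
  exact Finset.sum_congr rfl fun m _ => by rw [MonoidalLinear.whiskerLeft_smul]

omit [MonoidalPreadditive C] [MonoidalLinear K C] in
theorem Rel_reindex (r : ℕ) (f : PM (Fin (2 * r + 2)) → K) {X : C}
    (k : X ⟶ pow M (2 * (r + 1))) :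
    k ≫ ev P (r + 1) (f : PM (Fin (2 * (r + 1))) → K) =
      ∑ m : PM (Fin (2 * r)), (f (ups m) • (k ≫ qm P (r + 1) (ups m)) +
        ∑ x : Fin (2 * r), f (PM.map (swap x.succ.succ (0 : Fin (2 * r + 2))) (ups m)) •
          (k ≫ qm P (r + 1) (PM.map (swap x.succ.succ (0 : Fin (2 * r + 2))) (ups m)))) := by
  have h1 : k ≫ ev P (r + 1) (f : PM (Fin (2 * (r + 1))) → K) =
      ∑ m : PM (Fin (2 * r + 2)), f m • (k ≫ qm P (r + 1) m) := Rel_ev_comp P (r + 1) f k
  have h2 : ∑ m : PM (Fin (2 * r + 2)), f m • (k ≫ qm P (r + 1) m) =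
      ∑ m : PM (Fin (2 * r) ⊕ Bool), f (PM.map (eF (2 * r)) m) •
        (k ≫ qm P (r + 1) (PM.map (eF (2 * r)) m)) :=
    (Equiv.sum_comp (PM.map (eF (2 * r)))
      (fun m : PM (Fin (2 * r + 2)) => f m • (k ≫ qm P (r + 1) m))).symm
  rw [h1, h2, sum_PM]
  refine Finset.sum_congr rfl fun m _ => ?_
  congr 1
  refine Finset.sum_congr rfl fun x _ => ?_
  have h3 : PM.map (eF (2 * r)) (PM.map (swap (Sum.inl x) (Sum.inr false) :
      Perm (Fin (2 * r) ⊕ Bool)) (PM.sum m PM.bool)) =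
      PM.map (swap x.succ.succ (0 : Fin (2 * r + 2))) (ups m) := by
    unfold ups
    rw [PM.map_map, PM.map_map]
    congr 2
    refine Equiv.ext fun y => ?_
    rw [Equiv.trans_apply, Equiv.trans_apply, ← eF_inl, ← eF_false,
      (eF (2 * r)).injective.swap_apply]
  rw [h3]

omit [MonoidalPreadditive C] [MonoidalLinear K C] in
theorem ev_tr (r : ℕ) (g : Perm (Fin (2 * r))) (f : PM (Fin (2 * r)) → K) :
    ev P r (T7.tr g f) = act M (2 * r) g⁻¹ ≫ ev P r f := by
  rw [Rel_ev_comp, ev_apply, ← Equiv.sum_comp (PM.map g)]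
  refine Finset.sum_congr rfl fun m _ => ?_
  rw [qm_map, tr_apply, PM.map_map, Equiv.self_trans_symm, PM.map_refl]

theorem ev_up (r : ℕ) (f : PM (Fin (2 * r)) → K) :
    ev P (r + 1) (T7.tr (eF (2 * r)) (up f) : PM (Fin (2 * (r + 1))) → K) =
      (α_ M M (pow M (2 * r))).inv ≫ (P.q ⊗ₘ ev P r f) := by
  have h1 := Rel_reindex P r (T7.tr (eF (2 * r)) (up f)) (𝟙 (pow M (2 * (r + 1))))
  rw [Category.id_comp] at h1
  refine h1.trans ?_
  rw [MonoidalCategory.tensorHom_def, Rel_whisker, Preadditive.comp_sum, Preadditive.comp_sum]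
  refine Finset.sum_congr rfl fun m _ => ?_
  have h2 : T7.tr (eF (2 * r)) (up f) (ups m) = f m := by
    rw [tr_apply]
    unfold ups
    rw [PM.map_map, Equiv.self_trans_symm, PM.map_refl, up_sum]
  have h3 : ∀ x : Fin (2 * r), T7.tr (eF (2 * r)) (up f)
      (PM.map (swap x.succ.succ (0 : Fin (2 * r + 2))) (ups m)) = 0 := by
    intro x
    rw [tr_apply]
    refine up_of_ne _ _ fun h => ?_
    have h4 : (PM.map (eF (2 * r)).symm (PM.map (swap x.succ.succ (0 : Fin (2 * r + 2)))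
        (ups m))) (Sum.inr true) = Sum.inr false := by rw [← h, PM.inv]
    have h5 : (swap x.succ.succ (0 : Fin (2 * r + 2))) 1 = 1 := by
      refine swap_apply_of_ne_of_ne (fun h5 => ?_) (fun h5 => ?_)
      · exact absurd (congrArg Fin.val h5) (by simp)
      · exact absurd (congrArg Fin.val h5) (by simp)
    rw [PM.map_apply, PM.map_apply, Equiv.symm_symm, eF_true, Equiv.symm_swap,
      h5, ups_one, swap_apply_right] at h4
    exact absurd ((Equiv.symm_apply_eq _).1 h4) (Fin.succ_ne_zero _)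
  rw [h2, Finset.sum_eq_zero (fun x _ => by rw [h3 x, zero_smul]), add_zero, Category.id_comp,
    Linear.comp_smul, Linear.comp_smul, ← MonoidalCategory.tensorHom_def]
  exact congrArg (fun t => f m • t) (qm_ups P r m)

theorem ev_dn {δ : K} (hδ : P.c ≫ P.q = δ • 𝟙 T) (r : ℕ) (f : PM (Fin (2 * (r + 1))) → K) :
    T ◁ ev P r (dn δ (T7.tr (eF (2 * r)).symm (f : PM (Fin (2 * r + 2)) → K))) =
      kap P (2 * r) ≫ ev P (r + 1) f := by
  refine Eq.trans ?_ (Rel_reindex P r f (kap P (2 * r))).symm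
  rw [Rel_whisker]
  refine Finset.sum_congr rfl fun m _ => ?_
  have h2 : T7.tr (eF (2 * r)).symm (f : PM (Fin (2 * r + 2)) → K) (PM.sum m PM.bool) =
      f (ups m) := rfl
  have h3 : ∀ x : Fin (2 * r), T7.tr (swap (Sum.inl x) (Sum.inr false) :
      Perm (Fin (2 * r) ⊕ Bool)) (T7.tr (eF (2 * r)).symm (f : PM (Fin (2 * r + 2)) → K))
      (PM.sum m PM.bool) = f (PM.map (swap x.succ.succ (0 : Fin (2 * r + 2))) (ups m)) := by
    intro x
    rw [tr_apply, tr_apply, Equiv.symm_symm, Equiv.symm_swap]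
    congr 1
    unfold ups
    rw [PM.map_map, PM.map_map]
    congr 2
    refine Equiv.ext fun y => ?_
    rw [Equiv.trans_apply, Equiv.trans_apply, ← eF_inl, ← eF_false,
      (eF (2 * r)).injective.swap_apply]
  have h4 : ∀ x : Fin (2 * r), f (PM.map (swap x.succ.succ (0 : Fin (2 * r + 2))) (ups m)) •
      (kap P (2 * r) ≫ qm P (r + 1) (PM.map (swap x.succ.succ (0 : Fin (2 * r + 2))) (ups m))) =
      f (PM.map (swap x.succ.succ (0 : Fin (2 * r + 2))) (ups m)) • (T ◁ qm P r m) := by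
    intro x
    exact congrArg (fun t => f (PM.map (swap x.succ.succ (0 : Fin (2 * r + 2))) (ups m)) • t)
      (kap_swap P r m x)
  rw [dn, h2, Finset.sum_congr rfl (fun x _ => h3 x), add_smul, mul_comm δ, mul_smul,
    Finset.sum_smul]
  exact congrArg₂ (fun s t => s + t)
    (congrArg (fun t => f (ups m) • t) (kap_ups P hδ r m).symm)
    (Finset.sum_congr rfl fun x _ => (h4 x).symm)

omit [MonoidalPreadditive C] [MonoidalLinear K C] in
theorem ev_zero_inj (hunit : ∀ a : K, a • 𝟙 (𝟙_ C) = 0 → a = 0) :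
    LinearMap.ker (ev (K := K) P 0) = ⊥ := by
  rw [eq_bot_iff]
  intro f hf
  rw [LinearMap.mem_ker, ev_apply] at hf
  have h1 : ∀ m : PM (Fin (2 * 0)), m = ms 0 := fun m => PM.ext fun x => Fin.elim0 x
  have h2 : qm P 0 (ms 0) = 𝟙 (𝟙_ C) := by
    have h := qm_ms_map P 0 1
    have h3 : PM.map (1 : Perm (Fin (2 * 0))) (ms 0) = ms 0 := rfl
    rw [h3, inv_one, act_one, Category.id_comp] at h
    exact h
  have h3 : ∑ m, f m • qm P 0 m = f (ms 0) • qm P 0 (ms 0) :=
    Fintype.sum_eq_single _ fun m hm => absurd (h1 m) hm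
  rw [h3, h2] at hf
  have h4 := hunit _ hf
  rw [Submodule.mem_bot]
  funext m
  rw [h1 m, h4]
  rfl

/-- THE RELATION SYSTEM of `M`: combinations of matchings that vanish as morphisms
`M^{⊗ 2r} ⟶ T^{⊗ r}` -/
noncomputable def Rel {δ : K} (hδ : P.c ≫ P.q = δ • 𝟙 T)
    (hunit : ∀ a : K, a • 𝟙 (𝟙_ C) = 0 → a = 0) : Sys K δ :=
  Sys.ofFin (fun r => LinearMap.ker (ev (K := K) P r))
    (by
      intro r g f hf
      rw [LinearMap.mem_ker] at hf ⊢
      rw [ev_tr, hf, Limits.comp_zero])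
    (by
      intro r f hf
      rw [LinearMap.mem_ker] at hf ⊢
      rw [ev_up, hf]
      simp
      rfl)
    (by
      intro r f hf
      rw [LinearMap.mem_ker] at hf ⊢
      apply T_faithful P
      rw [ev_dn P hδ, hf, Limits.comp_zero]
      rfl)
    (ev_zero_inj P hunit)

theorem mem_Rel {δ : K} (hδ : P.c ≫ P.q = δ • 𝟙 T)
    (hunit : ∀ a : K, a • 𝟙 (𝟙_ C) = 0 → a = 0) {α : Type} [Finite α] (r : ℕ)
    (e : α ≃ Fin (2 * r)) (f : PM α → K) :
    f ∈ (Rel P hδ hunit).R α ↔ ∑ m, (T7.tr e f) m • qm P r m = 0 := by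
  unfold Rel
  rw [Sys.mem_ofFin (r := r) (e := e), LinearMap.mem_ker, ev_apply]

end T7
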