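import Pool.Agent.W_868bb7_h16c.Rel
import Pool.Agent.W_868bb7_h16c.Dim
import Pool.Agent.W_868bb7_h16.Rig

/-!
# Rigidity and comparability of the relations between matchings
-/

set_option autoImplicit false

namespace T7

open CategoryTheory MonoidalCategory Equiv Pool.Agent.W_MP_868bb7_ag

universe v u v' u' w

variable {K : Type w} [Field K] [CharZero K]
variable {C : Type u} [Category.{v} C] [MonoidalCategory C] [SymmetricCategory C]
  [RightRigidCategory C] [Preadditive C] [Linear K C] [MonoidalPreadditive C]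
  [MonoidalLinear K C] [UnitK K C]
variable {D : Type u'} [Category.{v'} D] [MonoidalCategory D] [SymmetricCategory D]
  [RightRigidCategory D] [Preadditive D] [Linear K D] [MonoidalPreadditive D]
  [MonoidalLinear K D] [UnitK K D]

/-- the relation system of a self-dual object, with parameter `dim M` -/
noncomputable def RelM {M T : C} (P : Pairing M T) :
    Sys K (Pool.Agent.W_MP_868bb7_ag.tr K (𝟙 M)) :=
  Rel P (c_q P) (unit_smul_inj (K := K) (C := C))

omit [CharZero K] in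
theorem mem_RelM {M T : C} (P : Pairing M T) (r : ℕ) (f : PM (Fin (2 * r)) → K) :
    f ∈ (RelM (K := K) P).R (Fin (2 * r)) ↔ ∑ m, f m • qm P r m = 0 := by
  have h := mem_Rel (K := K) P (c_q P) (unit_smul_inj (K := K) (C := C)) r
    (Equiv.refl (Fin (2 * r))) f
  rw [tr_refl] at h
  exact h

/-- the matchings of `M^{⊗ 2r}` are linearly dependent -/
def Dep (K : Type w) [Field K] [Linear K C] {M T : C} (P : Pairing M T) (r : ℕ) : Prop :=
  ∃ f : PM (Fin (2 * r)) → K, f ≠ 0 ∧ ∑ m, f m • qm P r m = 0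

omit [CharZero K] in
theorem dep_iff {M T : C} (P : Pairing M T) (r : ℕ) :
    Dep K P r ↔ (RelM (K := K) P).R (Fin (2 * r)) ≠ ⊥ := by
  constructor
  · rintro ⟨f, hf, h⟩ hb
    rw [← mem_RelM, hb, Submodule.mem_bot] at h
    exact hf h
  · intro h
    obtain ⟨f, hf, hf0⟩ := Submodule.exists_mem_ne_zero_of_ne_bot h
    exact ⟨f, hf0, (mem_RelM P r f).1 hf⟩

/-- The degrees of dependence. -/
theorem dep_degrees {M T : C} (P : Pairing M T) (h : ∃ r, Dep K P r) :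
    ∃ b a : ℕ, 1 ≤ b ∧ 1 ≤ a ∧ (a : K) = 2 * b - 1 + Pool.Agent.W_MP_868bb7_ag.tr K (𝟙 M) ∧
      ∀ r, Dep K P r ↔ b * a ≤ r := by
  obtain ⟨r₀, h₀⟩ := h
  rw [dep_iff] at h₀
  obtain ⟨a, c, ha, hc, hev, hac, hdeg⟩ := (RelM (K := K) P).ne_bot_iff h₀
  obtain ⟨b, hb⟩ := hev
  refine ⟨b, a, by omega, ha, ?_, fun r => ?_⟩
  · rw [hac, hb]; push_cast; ring
  · rw [dep_iff, hdeg, Nat.card_fin]
    constructor
    · rintro ⟨h1, -⟩
      have h2 : a * c = 2 * (b * a) := by rw [hb]; ring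
      omega
    · intro h1
      have h2 : a * c = 2 * (b * a) := by rw [hb]; ring
      exact ⟨by omega, ⟨r, by ring⟩⟩

/-- COMPARABILITY -/
theorem relations_nested {M T : C} (P : Pairing M T) {N U : D} (Q : Pairing N U)
    (hdim : Pool.Agent.W_MP_868bb7_ag.tr K (𝟙 M) = Pool.Agent.W_MP_868bb7_ag.tr K (𝟙 N)) :
    (∀ (r : ℕ) (f : PM (Fin (2 * r)) → K), ∑ m, f m • qm P r m = 0 →
      ∑ m, f m • qm Q r m = 0) ∨
    (∀ (r : ℕ) (f : PM (Fin (2 * r)) → K), ∑ m, f m • qm Q r m = 0 →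
      ∑ m, f m • qm P r m = 0) := by
  have key : ∀ (δ : K) (I J : Sys K δ),
      (∀ (α : Type) [Finite α], I.R α ≤ J.R α) ∨ (∀ (α : Type) [Finite α], J.R α ≤ I.R α) :=
    fun δ I J => I.compare J
  have h1 := key _ (RelM (K := K) P)
    (Rel Q (hdim ▸ c_q Q) (unit_smul_inj (K := K) (C := D)))
  have h2 : ∀ (r : ℕ) (f : PM (Fin (2 * r)) → K),
      f ∈ (Rel Q (hdim ▸ c_q Q : Q.c ≫ Q.q = Pool.Agent.W_MP_868bb7_ag.tr K (𝟙 M) • 𝟙 U)
        (unit_smul_inj (K := K) (C := D))).R (Fin (2 * r)) ↔ ∑ m, f m • qm Q r m = 0 := by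
    intro r f
    have h := mem_Rel (K := K) Q
      (hdim ▸ c_q Q : Q.c ≫ Q.q = Pool.Agent.W_MP_868bb7_ag.tr K (𝟙 M) • 𝟙 U)
      (unit_smul_inj (K := K) (C := D)) r (Equiv.refl (Fin (2 * r))) f
    rw [tr_refl] at h
    exact h
  rcases h1 with h1 | h1
  · left
    intro r f hf
    rw [← mem_RelM] at hf
    exact (h2 r f).1 (h1 _ hf)
  · right
    intro r f hf
    rw [← mem_RelM]
    exact h1 _ ((h2 r f).2 hf)

/-- RIGIDITY: one relation of `M` in a degree not larger than the first degree of dependence of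
`N` gives all relations of `N`. -/
theorem relations_of_dep {M T : C} (P : Pairing M T) {N U : D} (Q : Pairing N U)
    (hdim : Pool.Agent.W_MP_868bb7_ag.tr K (𝟙 M) = Pool.Agent.W_MP_868bb7_ag.tr K (𝟙 N))
    {r₀ : ℕ} (hP : Dep K P r₀) (hQ : ∀ r < r₀, ¬ Dep K Q r) (r : ℕ)
    (f : PM (Fin (2 * r)) → K) (hf : ∑ m, f m • qm Q r m = 0) :
    ∑ m, f m • qm P r m = 0 := by
  set I := RelM (K := K) P with hI
  set J := Rel Q (hdim ▸ c_q Q : Q.c ≫ Q.q = Pool.Agent.W_MP_868bb7_ag.tr K (𝟙 M) • 𝟙 U)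
    (unit_smul_inj (K := K) (C := D)) with hJ
  have h2 : ∀ (r : ℕ) (f : PM (Fin (2 * r)) → K),
      f ∈ J.R (Fin (2 * r)) ↔ ∑ m, f m • qm Q r m = 0 := by
    intro r f
    have h := mem_Rel (K := K) Q
      (hdim ▸ c_q Q : Q.c ≫ Q.q = Pool.Agent.W_MP_868bb7_ag.tr K (𝟙 M) • 𝟙 U)
      (unit_smul_inj (K := K) (C := D)) r (Equiv.refl (Fin (2 * r))) f
    rw [tr_refl] at h
    exact h
  rw [← mem_RelM]
  refine I.le_of_dep J ?_ _ ((h2 r f).2 hf)
  intro β _ hβ
  refine ⟨Fin (2 * r₀), inferInstance, ?_, (dep_iff P r₀).1 hP⟩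
  rw [Nat.card_fin]
  by_contra hlt
  rw [not_le] at hlt
  obtain ⟨g, hg, hg0⟩ := Submodule.exists_mem_ne_zero_of_ne_bot hβ
  obtain ⟨m, -⟩ := Function.ne_iff.1 hg0
  have := Fintype.ofFinite β
  have hev := (by classical exact m.even_card : Even (Fintype.card β))
  obtain ⟨s, hs⟩ := hev
  have hcard : Nat.card β = 2 * s := by rw [Nat.card_eq_fintype_card, hs]; ring
  have e : β ≃ Fin (2 * s) := by
    apply (Finite.card_eq.1 _).some
    rw [Nat.card_fin, hcard]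
  refine hQ s (by omega) ⟨T7.tr e g, ?_, (h2 s _).1 (J.map e hg)⟩
  intro h0
  exact hg0 ((T7.tr e).map_eq_zero_iff.1 h0)

end T7
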